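import Mathlib
import Pool.Agent.Lib.MP_fd6bc6_al.NS.H2
import Pool.Agent.Lib.MP_fd6bc6_al.Prox

set_option autoImplicit false
set_option linter.unusedSectionVars false

open Topology Uniformity MeasureTheory

namespace Pool.Agent.MoufangHaar

/-- compact Moufang loops of finite exponent have an invariant mean -/
theorem hasMean_of_exponent {K : Type*} [MLoop K] [TopologicalSpace K] [CompactSpace K]
    [T2Space K] [TopMLoop K] {m : ℕ} (hm : 0 < m) (h : ∀ x : K, npw x m = 1) : HasMean K := by
  let : MeasurableSpace K := borel K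
  have : BorelSpace K := ⟨rfl⟩
  by_contra hcon
  have hcomp : CompactSpace (connectedComponent (1 : K)) :=
    isCompact_iff_compactSpace.mp (isClosed_connectedComponent.isCompact)
  have hconn : ConnectedSpace (connectedComponent (1 : K)) :=
    isConnected_iff_connectedSpace.mp isConnected_connectedComponent
  have hK : ¬ HasMean (connectedComponent (1 : K)) := by
    intro hK
    apply hcon
    have hker : ∃ m : Measure K,
        KerHaar (ConnectedComponents.mk : K → ConnectedComponents K) m := by
      refine kerHaar_of_image hK (Subtype.val : connectedComponent (1 : K) → K)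
        ⟨fun _ _ => rfl⟩ continuous_subtype_val ?_
      rw [Subtype.range_coe]
      ext x
      exact (mk_eq_one_iff x).symm
    exact hasInt_iff_hasMean.mp (hasHaar_iff_component.mpr hker).hasInt
  obtain ⟨p, hp, ⟨n0, hn0, hpn0⟩, P, Q, hPQ⟩ := exists_homotopism hK
  let : UniformSpace (connectedComponent (1 : K)) := uniformSpaceOfCompactR1
  have hC : Contr n0 := contr_of_prox fun U hU => by
    obtain ⟨f, hf, hfU⟩ := prox_of_homotopism hp {n0} (by simpa using hpn0) U hU
    exact ⟨f, hf, hfU n0 (Finset.mem_singleton_self n0)⟩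
  refine hn0 (hC.torsion hm ?_)
  have hpow : ∀ k, (npw n0 k).1 = npw n0.1 k := by
    intro k
    induction k with
    | zero => rfl
    | succ k ih =>
      unfold npw at *
      rw [Function.iterate_succ_apply', Function.iterate_succ_apply', ← ih]
      rfl
  exact Subtype.ext ((hpow m).trans (h n0.1))

section alg

variable {L : Type*} [MLoop L]

theorem npw_zero (n : L) : npw n 0 = 1 := rfl

theorem npw_succ (n : L) (k : ℕ) : npw n (k + 1) = n * npw n k := by
  unfold npw
  rw [Function.iterate_succ_apply']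

theorem npw_hom {Q : Type*} [MLoop Q] {φ : L → Q} (hφ : IsMHom φ) (n : L) (k : ℕ) :
    φ (npw n k) = npw (φ n) k := by
  induction k with
  | zero => exact hφ.map_one
  | succ k ih => rw [npw_succ, npw_succ, hφ.map_mul, ih]

/-- translations fixing the unit respect powers -/
theorem TM.npw_of_one {f : L → L} (hf : TM f) (h1 : f 1 = 1) (w : L) (k : ℕ) :
    f (npw w k) = npw (f w) k := by
  obtain ⟨g, h, _, _, H⟩ := hf.first
  have hgh : ∀ y, g y = h y := fun y => by
    have := H 1 y
    rwa [MLoop.one_mul, h1, MLoop.one_mul] at this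
  have hgc : ∀ x, g x = f x * h 1 := fun x => by
    have := H x 1
    rwa [MLoop.mul_one] at this
  refine MLoop.mul_right_cancel (a := h 1) ?_
  rw [npw_mul, ← hgc]
  induction k with
  | zero =>
    rw [npw_zero, hgh]
    rfl
  | succ k ih =>
    rw [npw_succ, H, ← hgh, ih, Function.iterate_succ_apply']

/-- images of multiplications by powers under translations -/
theorem TM.mul_npw {g : L → L} (hg : TM g) (x w : L) (k : ℕ) :
    g (x * npw w k) = g x * npw ((g x)⁻¹ * g (x * w)) k := by
  have hf : TM (fun z => (g x)⁻¹ * g (x * z)) :=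
    TM.left _ (TM.comp hg (TM.left x TM.id))
  have h1 := hf.npw_of_one (by rw [MLoop.mul_one, MLoop.inv_mul_self]) w k
  have h2 : (g x)⁻¹ * g (x * npw w k) = npw ((g x)⁻¹ * g (x * w)) k := h1
  rw [← h2, MLoop.mul_inv_left]

theorem npw_inv_mul (w : L) (k : ℕ) : ∀ x, npw w⁻¹ k * (npw w k * x) = x := by
  intro x
  rw [npw_mul, npw_mul]
  exact (Function.LeftInverse.iterate (f := fun x => w * x) (g := fun x => w⁻¹ * x)
    (fun x => MLoop.inv_mul_left w x) k) x

theorem npw_inv (w : L) (k : ℕ) : npw w⁻¹ k = (npw w k)⁻¹ := by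
  have h := npw_inv_mul w k 1
  rw [MLoop.mul_one] at h
  refine MLoop.mul_right_cancel (a := npw w k) ?_
  rw [h, MLoop.inv_mul_self]

/-- one step: multiplication by the m-th power of an element of the class of the unit -/
def St [TopologicalSpace L] (R : CC L) (m : ℕ) (x y : L) : Prop :=
  ∃ w, R.r w 1 ∧ y = x * npw w m

variable [TopologicalSpace L]

theorem St.symm {R : CC L} {m : ℕ} {x y : L} (h : St R m x y) : St R m y x := by
  obtain ⟨w, hw, rfl⟩ := h
  have hi1 : (1 : L)⁻¹ = 1 := by
    have h1 := MLoop.mul_inv_self (1 : L)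
    rwa [MLoop.one_mul] at h1
  refine ⟨w⁻¹, ?_, ?_⟩
  · have h1 := R.inv hw
    rwa [hi1] at h1
  · rw [npw_inv, MLoop.mul_mul_inv]

theorem CC.tm (R : CC L) {g : L → L} (hg : TM g) {x y : L} (h : R.r x y) : R.r (g x) (g y) := by
  induction hg with
  | id => exact h
  | left a _ ih => exact R.left a _ _ ih
  | right a _ ih => exact R.right a _ _ ih

theorem St.tm {R : CC L} {m : ℕ} {x y : L} (h : St R m x y) {g : L → L} (hg : TM g) :
    St R m (g x) (g y) := by
  obtain ⟨w, hw, rfl⟩ := h
  refine ⟨(g x)⁻¹ * g (x * w), ?_, hg.mul_npw x w m⟩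
  have h1 : R.r (g (x * w)) (g (x * 1)) := R.tm hg (R.left x _ _ hw)
  rw [MLoop.mul_one] at h1
  have h2 := R.left (g x)⁻¹ _ _ h1
  rwa [MLoop.inv_mul_self] at h2

theorem npw_class (R : CC L) {w : L} (hw : R.r w 1) (m : ℕ) : R.r (npw w m) 1 := by
  induction m with
  | zero => exact R.equiv.refl _
  | succ m ih =>
    rw [npw_succ]
    have h1 : R.r (w * npw w m) (1 * 1) := R.mul hw ih
    rwa [MLoop.one_mul] at h1

theorem St.le {R : CC L} {m : ℕ} {x y : L} (h : St R m x y) : R.r x y := by
  obtain ⟨w, hw, rfl⟩ := h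
  have h1 := R.left x _ _ (npw_class R hw m)
  rw [MLoop.mul_one] at h1
  exact R.equiv.symm h1

theorem StG.symm {R : CC L} {m : ℕ} {x y : L} (h : Relation.ReflTransGen (St R m) x y) :
    Relation.ReflTransGen (St R m) y x := by
  induction h with
  | refl => exact Relation.ReflTransGen.refl
  | tail _ h2 ih => exact (Relation.ReflTransGen.single h2.symm).trans ih

theorem StG.tm {R : CC L} {m : ℕ} {x y : L} (h : Relation.ReflTransGen (St R m) x y)
    {g : L → L} (hg : TM g) : Relation.ReflTransGen (St R m) (g x) (g y) := by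
  induction h with
  | refl => exact Relation.ReflTransGen.refl
  | tail _ h2 ih => exact ih.tail (h2.tm hg)

theorem StG.le {R : CC L} {m : ℕ} {x y : L} (h : Relation.ReflTransGen (St R m) x y) :
    R.r x y := by
  induction h with
  | refl => exact R.equiv.refl _
  | tail _ h2 ih => exact R.equiv.trans ih h2.le

end alg

section top

variable {L : Type*} [MLoop L] [TopologicalSpace L] [TopMLoop L]

/-- the closed congruence generated by the m-th powers -/
def Rm (R : CC L) (m : ℕ) : CC L where
  r x y := (x, y) ∈ closure {p : L × L | Relation.ReflTransGen (St R m) p.1 p.2}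
  equiv := by
    refine ⟨fun x => subset_closure Relation.ReflTransGen.refl, fun {x y} h => ?_,
      fun {x y z} h h' => ?_⟩
    · exact map_mem_closure (f := fun p : L × L => (p.2, p.1))
        (continuous_snd.prodMk continuous_fst) h fun p hp => StG.symm hp
    · have hc : Continuous (Function.uncurry fun p q : L × L => (p.1 * (p.2⁻¹ * q.1), q.2)) := by
        refine Continuous.prodMk ?_ (continuous_snd.comp continuous_snd)
        exact TopMLoop.cmul (continuous_fst.comp continuous_fst)
          (TopMLoop.cmul (TopMLoop.cinv (continuous_snd.comp continuous_fst))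
            (continuous_fst.comp continuous_snd))
      have h1 := map_mem_closure₂ (f := fun p q : L × L => (p.1 * (p.2⁻¹ * q.1), q.2)) hc h h'
        (u := {p : L × L | Relation.ReflTransGen (St R m) p.1 p.2}) (fun p hp q hq => by
          have h2 := StG.tm hp (TM.right (p.2⁻¹ * q.1) TM.id)
          have h3 : Relation.ReflTransGen (St R m) (p.1 * (p.2⁻¹ * q.1))
            (p.2 * (p.2⁻¹ * q.1)) := h2
          rw [MLoop.mul_inv_left] at h3
          exact h3.trans hq)
      have h2 : (x * (y⁻¹ * y), z) ∈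
        closure {p : L × L | Relation.ReflTransGen (St R m) p.1 p.2} := h1
      rwa [MLoop.inv_mul_self, MLoop.mul_one] at h2
  left a x y h := map_mem_closure (f := fun p : L × L => (a * p.1, a * p.2))
    (((TopMLoop.continuous_mul_left a).comp continuous_fst).prodMk
      ((TopMLoop.continuous_mul_left a).comp continuous_snd)) h
      fun p hp => StG.tm hp (TM.left a TM.id)
  right a x y h := map_mem_closure (f := fun p : L × L => (p.1 * a, p.2 * a))
    (((TopMLoop.continuous_mul_right a).comp continuous_fst).prodMk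
      ((TopMLoop.continuous_mul_right a).comp continuous_snd)) h
      fun p hp => StG.tm hp (TM.right a TM.id)
  closed := isClosed_closure

theorem Rm_le (R : CC L) (m : ℕ) : Rm R m ≤ R := fun _ _ h =>
  closure_minimal (s := {p : L × L | Relation.ReflTransGen (St R m) p.1 p.2})
    (fun _ hp => StG.le hp) R.closed h

theorem Rm_npw (R : CC L) (m : ℕ) {w : L} (hw : R.r w 1) : (Rm R m).r (npw w m) 1 := by
  refine (Rm R m).equiv.symm (subset_closure ?_)
  exact Relation.ReflTransGen.single ⟨w, hw, (MLoop.one_mul _).symm⟩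

variable [CompactSpace L] [T2Space L]

/-- the residual is generated by its m-th powers -/
theorem res_le_Rm {m : ℕ} (hm : 0 < m) : CC.res L ≤ Rm (CC.res L) m := by
  have hFH : CC.FH (Rm (CC.res L) m) (CC.res L) := by
    refine ⟨Rm_le _ m, hasMean_of_exponent hm fun q => ?_⟩
    obtain ⟨x, hx, rfl⟩ := CC.exists_kk (Rm_le _ m) q
    refine Subtype.ext ?_
    have h1 : ∀ k, (npw (CC.kk (Rm_le (CC.res L) m) x hx) k).1 = (Rm (CC.res L) m).pr (npw x k) := by
      intro k
      rw [npw_hom (Rm (CC.res L) m).pr_hom]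
      exact npw_hom (φ := fun q : CC.KK (Rm_le (CC.res L) m) => q.1) ⟨fun _ _ => rfl⟩ _ k
    rw [h1]
    exact (Rm (CC.res L) m).pr_eq.mpr (Rm_npw _ m hx)
  exact fun x y h => CC.res_le (CC.hasMean_of_FH hFH CC.hasMean_res) x y h

/-- CHAINS OF POWERS: every point of the residual is a limit of points which are reached from the
unit by finitely many multiplications by m-th powers of elements of the residual. -/
theorem exists_chain {m : ℕ} (hm : 0 < m) {u : L} (hu : (CC.res L).r u 1) {O : Set L} (hO : O ∈ 𝓝 u) :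
    ∃ v ∈ O, Relation.ReflTransGen (St (CC.res L) m) 1 v := by
  have h1 : (1, u) ∈ closure {p : L × L | Relation.ReflTransGen (St (CC.res L) m) p.1 p.2} :=
    res_le_Rm hm _ _ ((CC.res L).equiv.symm hu)
  have hc : Continuous (fun p : L × L => p.1⁻¹ * p.2) :=
    TopMLoop.cmul (TopMLoop.cinv continuous_fst) continuous_snd
  have hi1 : (1 : L)⁻¹ = 1 := by
    have h1 := MLoop.mul_inv_self (1 : L)
    rwa [MLoop.one_mul] at h1
  have h2 : (fun p : L × L => p.1⁻¹ * p.2) ⁻¹' O ∈ 𝓝 ((1 : L), u) := by
    refine hc.continuousAt ?_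
    change O ∈ 𝓝 ((1 : L)⁻¹ * u)
    rwa [hi1, MLoop.one_mul]
  obtain ⟨⟨x, y⟩, hxy, hp⟩ := mem_closure_iff_nhds.mp h1 _ h2
  refine ⟨x⁻¹ * y, hxy, ?_⟩
  have h3 := StG.tm hp (TM.left x⁻¹ TM.id)
  have h4 : Relation.ReflTransGen (St (CC.res L) m) (x⁻¹ * x) (x⁻¹ * y) := h3
  rwa [MLoop.inv_mul_self] at h4

theorem exists_seq_of_gen {R : CC L} {m : ℕ} {x y : L}
    (h : Relation.ReflTransGen (St R m) x y) :
    ∃ (n : ℕ) (X : ℕ → L), X 0 = x ∧ X n = y ∧ ∀ i, St R m (X i) (X (i + 1)) := by
  have hrefl : ∀ z : L, St R m z z := fun z => ⟨1, R.equiv.refl _, by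
    have h1 : ∀ k, npw (1 : L) k = 1 := by
      intro k
      induction k with
      | zero => rfl
      | succ k ih => rw [npw_succ, ih, MLoop.one_mul]
    rw [h1, MLoop.mul_one]⟩
  induction h with
  | refl => exact ⟨0, fun _ => x, rfl, rfl, fun _ => hrefl x⟩
  | @tail y z _ h2 ih =>
    obtain ⟨n, X, h0, hn, hX⟩ := ih
    refine ⟨n + 1, fun i => if i ≤ n then X i else z, by simp [h0], by simp, fun i => ?_⟩
    rcases lt_trichotomy i n with hi | hi | hi
    · have h3 : i ≤ n := hi.le
      have h4 : i + 1 ≤ n := hi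
      simp only [h3, h4, if_true]
      exact hX i
    · subst hi
      have h4 : ¬ i + 1 ≤ i := by omega
      simp only [le_refl, if_true, h4, if_false]
      rw [hn]
      exact h2
    · have h3 : ¬ i ≤ n := by omega
      have h4 : ¬ i + 1 ≤ n := by omega
      simp only [h3, h4, if_false]
      exact hrefl z

/-- the chain as a sequence, of any length from some length on -/
theorem exists_chain_seq {m : ℕ} (hm : 0 < m) {u : L} (hu : (CC.res L).r u 1) {O : Set L}
    (hO : O ∈ 𝓝 u) : ∃ n : ℕ, 0 < n ∧ ∃ X : ℕ → L, X 0 = 1 ∧ (∀ k, n ≤ k → X k = X n) ∧ X n ∈ O ∧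
      ∀ i, St (CC.res L) m (X i) (X (i + 1)) := by
  obtain ⟨v, hv, h⟩ := exists_chain hm hu hO
  obtain ⟨n, X, h0, hn, hX⟩ := exists_seq_of_gen h
  have hrefl : ∀ z : L, St (CC.res L) m z z := fun z => ⟨1, (CC.res L).equiv.refl _, by
    have h1 : ∀ k, npw (1 : L) k = 1 := by
      intro k
      induction k with
      | zero => rfl
      | succ k ih => rw [npw_succ, ih, MLoop.one_mul]
    rw [h1, MLoop.mul_one]⟩
  refine ⟨n + 1, Nat.succ_pos n, fun i => if i ≤ n then X i else X n, by simp [h0],
    fun k hk => ?_, ?_, fun i => ?_⟩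
  · have h1 : ¬ k ≤ n := by omega
    have h2 : ¬ n + 1 ≤ n := by omega
    simp only [h1, h2, if_false]
  · have h2 : ¬ n + 1 ≤ n := by omega
    simp only [h2, if_false]
    rw [hn]
    exact hv
  · rcases lt_or_ge i n with hi | hi
    · have h3 : i ≤ n := hi.le
      have h4 : i + 1 ≤ n := hi
      simp only [h3, h4, if_true]
      exact hX i
    · have h4 : ¬ i + 1 ≤ n := by omega
      have h5 : (if i ≤ n then X i else X n) = X n := by
        split_ifs with h6
        · rw [le_antisymm h6 hi]
        · rfl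
      simp only [h4, if_false, h5]
      exact hrefl _

end top

end Pool.Agent.MoufangHaar
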