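import Mathlib
import Pool.Agent.Lib.MP_fd6bc6_al.Mg.G012
import Pool.Agent.Lib.MP_fd6bc6_al.T3.FIN

set_option autoImplicit false
set_option linter.unusedSectionVars false

open Topology MeasureTheory Pool.Agent.MP_fd6bc6_al.BU

universe u

namespace Pool.Agent.MoufangHaar

/-- a compact Moufang loop with small powers has an invariant mean -/
theorem hasMean_of_small {L : Type u} [MLoop L] [TopologicalSpace L] [CompactSpace L] [T2Space L]
    [TopMLoop L]
    (hC2 : ∀ (N n : ℕ), 0 < n → ∃ q : ℕ, ∀ m, 0 < m → ∀ c : ((Fin n × Fin m) → ℤ) → Fin N,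
      ∃ a a' g, c a = c a' ∧ It (St2 q) (q * N) (fun p => a p + 1) g ∧ It (St1 q) (2 * N) g a')
    (hL : ∀ U ∈ 𝓝 (1 : L), ∃ n : ℕ, 0 < n ∧ ∀ x : L, npw x n ∈ U) : HasMean L := by
  have h1 := res_trivial hC2 hL
  refine (hasMean_ext (CC.res L).pr (CC.res L).pr_hom (CC.res L).pr_cont
    (CC.res L).pr_surj).mpr ⟨?_, CC.hasMean_res⟩
  let _ : MLoop {x : L // (CC.res L).pr x = 1} := kerM (CC.res L).pr_hom
  have _ : TopMLoop {x : L // (CC.res L).pr x = 1} := kerT (CC.res L).pr_hom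
  refine hasMean_of_subsingleton fun x y => Subtype.ext ?_
  rw [h1 x.1 ((CC.res L).pr_eq.mp x.2), h1 y.1 ((CC.res L).pr_eq.mp y.2)]

/-- every compact Moufang loop has an invariant mean -/
theorem hasMean_all {L : Type u} [MLoop L] [TopologicalSpace L] [CompactSpace L] [T2Space L]
    [TopMLoop L]
    (hC2 : ∀ (N n : ℕ), 0 < n → ∃ q : ℕ, ∀ m, 0 < m → ∀ c : ((Fin n × Fin m) → ℤ) → Fin N,
      ∃ a a' g, c a = c a' ∧ It (St2 q) (q * N) (fun p => a p + 1) g ∧ It (St1 q) (2 * N) g a') :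
    HasMean L := by
  refine (hasMean_ext (dv L).pr (dv L).pr_hom (dv L).pr_cont (dv L).pr_surj).mpr ⟨hasMean_dv, ?_⟩
  have h1 : Div (dv L).Q = {1} := by
    rw [← div_image (dv L).pr (dv L).pr_hom (dv L).pr_cont (dv L).pr_surj]
    ext q
    constructor
    · rintro ⟨x, hx, rfl⟩
      exact (dv L).pr_eq.mpr ((dv_iff x).mpr hx)
    · intro hq
      obtain ⟨x, rfl⟩ := (dv L).pr_surj q
      exact ⟨x, (dv_iff x).mp ((dv L).pr_eq.mp hq), rfl⟩
  exact hasMean_of_small hC2 fun U hU => powers_small h1 U hU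

/-- every compact Moufang loop has a Haar measure -/
theorem hasHaar_all
    (hC2 : ∀ (N n : ℕ), 0 < n → ∃ q : ℕ, ∀ m, 0 < m → ∀ c : ((Fin n × Fin m) → ℤ) → Fin N,
      ∃ a a' g, c a = c a' ∧ It (St2 q) (q * N) (fun p => a p + 1) g ∧ It (St1 q) (2 * N) g a')
    (L : Type u) [TopologicalSpace L] [CompactSpace L] [T2Space L]
    [MeasurableSpace L] [BorelSpace L] (mul ldiv rdiv : L → L → L) (e : L)
    (h1 : ∀ x, mul e x = x) (h2 : ∀ x, mul x e = x)
    (h3 : ∀ x y, mul x (ldiv x y) = y) (h4 : ∀ x y, ldiv x (mul x y) = y)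
    (_ : ∀ x y, mul (rdiv y x) x = y) (_ : ∀ x y, rdiv (mul y x) x = y)
    (h7 : ∀ x y z, mul z (mul x (mul z y)) = mul (mul (mul z x) z) y)
    (c1 : Continuous (fun p : L × L => mul p.1 p.2))
    (c2 : Continuous (fun p : L × L => ldiv p.1 p.2))
    (_ : Continuous (fun p : L × L => rdiv p.1 p.2)) :
    ∃ μ : Measure L, IsProbabilityMeasure μ ∧
      ∀ a : L, μ.map (fun x => mul a x) = μ ∧ μ.map (fun x => mul x a) = μ := by
  let _ : MLoop L := ofData mul ldiv e h1 h2 h3 h4 h7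
  have _ : TopMLoop L := topOfData mul ldiv e h1 h2 h3 h4 h7 c1 c2
  exact (hasInt_iff_hasMean.mpr (hasMean_all hC2)).hasHaar

end Pool.Agent.MoufangHaar
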